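import Pool.Agent.H242.GX.Stm

/-! GX-MEAN (helper80). -/

open Set Filter Topology
open scoped ContDiff
open Pool.Agent.H242.GX

namespace Pool.Agent.H80.GX.MEAN

/-- a smooth positive modification of the identity -/
theorem exists_mod (c : ℝ) (hc : 0 < c) : ∃ h : ℝ → ℝ, ContDiff ℝ ∞ h ∧ (∀ x, c / 2 ≤ h x) ∧
    ∀ x, c ≤ x → h x = x := by
  refine ⟨fun x => c / 2 + (x - c / 2) * Real.smoothTransition ((x - c / 2) / (c / 2)), ?_, ?_, ?_⟩
  · have h1 : ContDiff ℝ ∞ (fun x : ℝ => Real.smoothTransition ((x - c / 2) / (c / 2))) := by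
      apply ContDiff.comp (g := Real.smoothTransition)
      · exact Real.smoothTransition.contDiff
      · fun_prop
    fun_prop
  · intro x
    rcases le_total x (c / 2) with h | h
    · have h0 : Real.smoothTransition ((x - c / 2) / (c / 2)) = 0 := by
        apply Real.smoothTransition.zero_of_nonpos
        apply div_nonpos_of_nonpos_of_nonneg <;> linarith
      simp only [h0, mul_zero, add_zero]
      exact le_rfl
    · have h1 := Real.smoothTransition.nonneg ((x - c / 2) / (c / 2))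
      have h2 : 0 ≤ (x - c / 2) * Real.smoothTransition ((x - c / 2) / (c / 2)) :=
        mul_nonneg (by linarith) h1
      show c / 2 ≤ c / 2 + (x - c / 2) * Real.smoothTransition ((x - c / 2) / (c / 2))
      linarith
  · intro x hx
    have h1 : Real.smoothTransition ((x - c / 2) / (c / 2)) = 1 := by
      apply Real.smoothTransition.one_of_one_le
      rw [le_div_iff₀ (by linarith)]
      linarith
    simp only [h1]
    ring

theorem estimate {m : ℕ} {a b s c L B C₀ Qa Qma Qmb Ea : ℝ} (ha : 0 < a) (hb : 0 < b) (hs : 0 < s)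
    (hc : 0 < c) (hL : 0 ≤ L) (hB : 0 ≤ B) (hC₀ : 0 < C₀) (haC : a ≤ C₀ * s)
    (hLs : L * (C₀ * s) ≤ c / 2)
    (h1 : b ^ 2 * Qmb = s ^ 2) (h2 : a ^ 2 * Qa = s ^ 2)
    (h3 : a ^ 2 * Qa - a ^ 2 * Qma = a ^ m * Ea) (hQ : c ≤ Qmb)
    (hlip : |Qmb - Qma| ≤ L * |b - a|) (hE : |Ea| ≤ B) :
    |(b ^ 2 - a ^ 2) / s ^ m| ≤ 2 / c * C₀ ^ m * B ∧
    |(b ^ 2 - a ^ 2) / s ^ m * Qmb - (a / s) ^ m * Ea| ≤ L * (C₀ * s) * (2 / c * C₀ ^ m * B) := by
  have hsm : 0 < s ^ m := pow_pos hs m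
  have e1 : (b ^ 2 - a ^ 2) * Qmb - a ^ m * Ea = -(a ^ 2 * (Qmb - Qma)) := by
    linear_combination h1 - h2 + h3
  have e2 : |a ^ 2 * (Qmb - Qma)| ≤ L * (C₀ * s) * |b ^ 2 - a ^ 2| := by
    have h4 : |b ^ 2 - a ^ 2| = |b - a| * (b + a) := by
      rw [show b ^ 2 - a ^ 2 = (b - a) * (b + a) by ring, abs_mul, abs_of_pos (by linarith : 0 < b + a)]
    rw [abs_mul, abs_of_pos (by positivity : 0 < a ^ 2), h4]
    have h5 : 0 ≤ |b - a| := abs_nonneg _
    calc a ^ 2 * |Qmb - Qma| ≤ a ^ 2 * (L * |b - a|) := by gcongr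
      _ = (L * |b - a|) * (a * a) := by ring
      _ ≤ (L * |b - a|) * ((C₀ * s) * (b + a)) := by
          apply mul_le_mul_of_nonneg_left _ (mul_nonneg hL h5)
          apply mul_le_mul haC (by linarith) ha.le (by positivity)
      _ = L * (C₀ * s) * (|b - a| * (b + a)) := by ring
  have e3 : |b ^ 2 - a ^ 2| ≤ 2 / c * (a ^ m * B) := by
    have h6 : |(b ^ 2 - a ^ 2) * Qmb| ≤ a ^ m * B + c / 2 * |b ^ 2 - a ^ 2| := by
      have h7 : (b ^ 2 - a ^ 2) * Qmb = a ^ m * Ea + -(a ^ 2 * (Qmb - Qma)) := by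
        linear_combination e1
      rw [h7]
      refine (abs_add_le _ _).trans ?_
      rw [abs_neg, abs_mul (a ^ m), abs_of_pos (pow_pos ha m)]
      have h8 : L * (C₀ * s) * |b ^ 2 - a ^ 2| ≤ c / 2 * |b ^ 2 - a ^ 2| :=
        mul_le_mul_of_nonneg_right hLs (abs_nonneg _)
      have h9 : a ^ m * |Ea| ≤ a ^ m * B := by gcongr
      linarith
    rw [abs_mul, abs_of_pos (by linarith : 0 < Qmb)] at h6
    have h10 : |b ^ 2 - a ^ 2| * c ≤ |b ^ 2 - a ^ 2| * Qmb := by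
      gcongr
    have h11 : c / 2 * |b ^ 2 - a ^ 2| ≤ a ^ m * B := by linarith
    calc |b ^ 2 - a ^ 2| = 2 / c * (c / 2 * |b ^ 2 - a ^ 2|) := by field_simp
      _ ≤ 2 / c * (a ^ m * B) := by gcongr
  have e4 : |(b ^ 2 - a ^ 2) / s ^ m| ≤ 2 / c * C₀ ^ m * B := by
    rw [abs_div, abs_of_pos hsm, div_le_iff₀ hsm]
    refine e3.trans ?_
    have h12 : a ^ m ≤ (C₀ * s) ^ m := pow_le_pow_left₀ ha.le haC m
    calc 2 / c * (a ^ m * B) ≤ 2 / c * ((C₀ * s) ^ m * B) := by gcongr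
      _ = 2 / c * C₀ ^ m * B * s ^ m := by rw [mul_pow]; ring
  refine ⟨e4, ?_⟩
  have e5 : (b ^ 2 - a ^ 2) / s ^ m * Qmb - (a / s) ^ m * Ea = (-(a ^ 2 * (Qmb - Qma))) / s ^ m := by
    rw [← e1, div_pow]
    field_simp
  rw [e5, abs_div, abs_neg, abs_of_pos hsm]
  calc |a ^ 2 * (Qmb - Qma)| / s ^ m ≤ (L * (C₀ * s) * |b ^ 2 - a ^ 2|) / s ^ m := by gcongr
    _ = L * (C₀ * s) * |(b ^ 2 - a ^ 2) / s ^ m| := by rw [abs_div, abs_of_pos hsm]; ring
    _ ≤ L * (C₀ * s) * (2 / c * C₀ ^ m * B) := by gcongr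

theorem core (Q E T : ℝ × ℝ → ℝ) (m : ℕ) (ε c C₀ : ℝ) (hε : 0 < ε) (hc : 0 < c) (hC₀ : 0 < C₀)
    (hε1 : C₀ * ε ≤ 1)
    (hQ : ContDiff ℝ ∞ Q) (hE : Continuous E)
    (hQc : ∀ θ ∈ Icc 0 (2 * Real.pi), ∀ t, |t| ≤ C₀ * ε → c ≤ Q (θ, t))
    (hT : ∀ θ ∈ Icc 0 (2 * Real.pi), ∀ s, |s| < ε → T (θ, s) ^ 2 * Q (θ, T (θ, s)) = s ^ 2)
    (hTp : ∀ θ ∈ Icc 0 (2 * Real.pi), ∀ s, 0 < s → s < ε → 0 < T (θ, s))
    (hTn : ∀ θ ∈ Icc 0 (2 * Real.pi), ∀ s, 0 < s → s < ε → T (θ, -s) < 0)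
    (hTb : ∀ θ ∈ Icc 0 (2 * Real.pi), ∀ s, |s| < ε → |T (θ, s)| ≤ C₀ * |s|)
    (hTc : ∀ s, |s| < ε → Continuous fun θ => T (θ, s))
    (hodd : ∀ θ ∈ Icc 0 (2 * Real.pi), ∀ t,
      t ^ 2 * Q (θ, t) - t ^ 2 * Q (θ, -t) = t ^ m * E (θ, t))
    (hint : ∀ s, 0 < s → s < ε → ∫ θ in (0 : ℝ)..(2 * Real.pi), T (θ, s) ^ 2 =
      ∫ θ in (0 : ℝ)..(2 * Real.pi), T (θ, -s) ^ 2) :
    ∫ θ in (0 : ℝ)..(2 * Real.pi), (1 / Real.sqrt (Q (θ, 0))) ^ m * E (θ, 0) / Q (θ, 0) = 0 := by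
  have hpi : (0 : ℝ) ≤ 2 * Real.pi := by have := Real.pi_pos; linarith
  set K : Set (ℝ × ℝ) := Icc 0 (2 * Real.pi) ×ˢ Icc (-1) 1 with hK
  have hKc : IsCompact K := isCompact_Icc.prod isCompact_Icc
  obtain ⟨L, hL⟩ : ∃ L, LipschitzOnWith L Q K := by
    apply LocallyLipschitzOn.exists_lipschitzOnWith_of_compact hKc
    exact (hQ.of_le (by simp)).locallyLipschitz.locallyLipschitzOn
  obtain ⟨B, hB⟩ := hKc.exists_bound_of_continuousOn hE.continuousOn
  set B' := max B 0 with hB'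
  have hB'0 : 0 ≤ B' := le_max_right _ _
  set s₀ : ℝ := min ε (c / (2 * (L * C₀ + 1))) with hs₀
  have hLC : 0 ≤ (L : ℝ) * C₀ := mul_nonneg L.2 hC₀.le
  have hs₀p : 0 < s₀ := lt_min hε (by positivity)
  -- the basic estimate
  have key : ∀ θ ∈ Icc (0 : ℝ) (2 * Real.pi), ∀ s, 0 < s → s < s₀ →
      |(T (θ, -s) ^ 2 - T (θ, s) ^ 2) / s ^ m| ≤ 2 / c * C₀ ^ m * B' ∧
      |(T (θ, -s) ^ 2 - T (θ, s) ^ 2) / s ^ m * Q (θ, T (θ, -s)) -
        (T (θ, s) / s) ^ m * E (θ, T (θ, s))| ≤ L * (C₀ * s) * (2 / c * C₀ ^ m * B') := by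
    intro θ hθ s hs hs'
    have hsε : s < ε := hs'.trans_le (min_le_left _ _)
    have hs1 : |s| < ε := by rwa [abs_of_pos hs]
    have hs2 : |-s| < ε := by rwa [abs_neg]
    have ha := hTp θ hθ s hs hsε
    have hb := hTn θ hθ s hs hsε
    have hab := hTb θ hθ s hs1
    have hbb := hTb θ hθ (-s) hs2
    rw [abs_of_pos ha, abs_of_pos hs] at hab
    rw [abs_of_neg hb, abs_neg, abs_of_pos hs] at hbb
    have hCs : C₀ * s ≤ C₀ * ε := by gcongr
    have hcc : L * (C₀ * s) ≤ c / 2 := by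
      have h1 : s ≤ c / (2 * (L * C₀ + 1)) := hs'.le.trans (min_le_right _ _)
      rw [le_div_iff₀ (by positivity)] at h1
      nlinarith
    have h1 := hT θ hθ (-s) hs2
    have h2 := hT θ hθ s hs1
    have h3 := hodd θ hθ (T (θ, s))
    have hmem1 : ((θ, T (θ, -s)) : ℝ × ℝ) ∈ K := ⟨hθ, ⟨by simp only; linarith, by simp only; linarith⟩⟩
    have hmem2 : ((θ, -T (θ, s)) : ℝ × ℝ) ∈ K := ⟨hθ, ⟨by simp only; linarith, by simp only; linarith⟩⟩
    have hmem3 : ((θ, T (θ, s)) : ℝ × ℝ) ∈ K := ⟨hθ, ⟨by simp only; linarith, by simp only; linarith⟩⟩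
    have hlip := hL.dist_le_mul _ hmem1 _ hmem2
    rw [Real.dist_eq, Prod.dist_eq] at hlip
    simp only [dist_self, Real.dist_eq] at hlip
    rw [max_eq_right (abs_nonneg _)] at hlip
    have hEb : |E (θ, T (θ, s))| ≤ B' := by
      have := hB _ hmem3
      rw [Real.norm_eq_abs] at this
      exact this.trans (le_max_left _ _)
    have hQb : c ≤ Q (θ, T (θ, -s)) := by
      apply hQc θ hθ
      rw [abs_of_neg hb]
      linarith
    have hfin := estimate (m := m) (a := T (θ, s)) (b := -T (θ, -s)) (s := s) (c := c) (L := L)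
      (B := B') (C₀ := C₀) (Qa := Q (θ, T (θ, s))) (Qma := Q (θ, -T (θ, s)))
      (Qmb := Q (θ, T (θ, -s))) (Ea := E (θ, T (θ, s))) ha (by linarith) hs hc L.2 hB'0 hC₀ hab hcc
      (by rw [neg_sq]; linarith [h1, neg_sq s]) h2 h3 hQb
      (by
        have h4 : -T (θ, -s) - T (θ, s) = -(T (θ, -s) - -T (θ, s)) := by ring
        rw [h4, abs_neg]
        exact hlip) hEb
    rwa [neg_sq] at hfin
  -- pointwise limit
  have hlim : ∀ θ ∈ Icc (0 : ℝ) (2 * Real.pi),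
      Tendsto (fun s => (T (θ, -s) ^ 2 - T (θ, s) ^ 2) / s ^ m) (𝓝[>] 0)
        (𝓝 ((1 / Real.sqrt (Q (θ, 0))) ^ m * E (θ, 0) / Q (θ, 0))) := by
    intro θ hθ
    have hs_small : ∀ᶠ s : ℝ in 𝓝[>] 0, 0 < s ∧ s < s₀ := Ioo_mem_nhdsGT hs₀p
    have hQ0 : c ≤ Q (θ, 0) := hQc θ hθ 0 (by rw [abs_zero]; positivity)
    have hid : Tendsto (fun s : ℝ => C₀ * s) (𝓝[>] 0) (𝓝 0) := by
      have : Tendsto (fun s : ℝ => C₀ * s) (𝓝 0) (𝓝 (C₀ * 0)) := tendsto_id.const_mul C₀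
      rw [mul_zero] at this
      exact this.mono_left nhdsWithin_le_nhds
    have hT0 : Tendsto (fun s => T (θ, s)) (𝓝[>] 0) (𝓝 0) := by
      apply squeeze_zero_norm' _ hid
      filter_upwards [hs_small] with s hs
      have hsε : s < ε := hs.2.trans_le (min_le_left _ _)
      have := hTb θ hθ s (by rwa [abs_of_pos hs.1])
      rwa [abs_of_pos hs.1] at this
    have hT0' : Tendsto (fun s => T (θ, -s)) (𝓝[>] 0) (𝓝 0) := by
      apply squeeze_zero_norm' _ hid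
      filter_upwards [hs_small] with s hs
      have hsε : s < ε := hs.2.trans_le (min_le_left _ _)
      have := hTb θ hθ (-s) (by rwa [abs_neg, abs_of_pos hs.1])
      rwa [abs_neg, abs_of_pos hs.1] at this
    have hQ1 : Tendsto (fun s => Q (θ, T (θ, s))) (𝓝[>] 0) (𝓝 (Q (θ, 0))) := by
      have h1 : Tendsto (fun t : ℝ => Q (θ, t)) (𝓝 0) (𝓝 (Q (θ, 0))) :=
        (hQ.continuous.comp (by fun_prop : Continuous fun t : ℝ => (θ, t))).tendsto 0
      exact h1.comp hT0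
    have hQ2 : Tendsto (fun s => Q (θ, T (θ, -s))) (𝓝[>] 0) (𝓝 (Q (θ, 0))) := by
      have h1 : Tendsto (fun t : ℝ => Q (θ, t)) (𝓝 0) (𝓝 (Q (θ, 0))) :=
        (hQ.continuous.comp (by fun_prop : Continuous fun t : ℝ => (θ, t))).tendsto 0
      exact h1.comp hT0'
    have hE1 : Tendsto (fun s => E (θ, T (θ, s))) (𝓝[>] 0) (𝓝 (E (θ, 0))) := by
      have h1 : Tendsto (fun t : ℝ => E (θ, t)) (𝓝 0) (𝓝 (E (θ, 0))) :=
        (hE.comp (by fun_prop : Continuous fun t : ℝ => (θ, t))).tendsto 0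
      exact h1.comp hT0
    have hTs : Tendsto (fun s => T (θ, s) / s) (𝓝[>] 0) (𝓝 (1 / Real.sqrt (Q (θ, 0)))) := by
      have h1 : Tendsto (fun s => 1 / Real.sqrt (Q (θ, T (θ, s)))) (𝓝[>] 0)
          (𝓝 (1 / Real.sqrt (Q (θ, 0)))) := by
        apply Tendsto.div tendsto_const_nhds hQ1.sqrt
        exact (Real.sqrt_pos.mpr (by linarith)).ne'
      apply h1.congr'
      filter_upwards [hs_small] with s hs
      have hsε : s < ε := hs.2.trans_le (min_le_left _ _)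
      have hs1 : |s| < ε := by rwa [abs_of_pos hs.1]
      have ha := hTp θ hθ s hs.1 hsε
      have h2 := hT θ hθ s hs1
      have hQp : 0 < Q (θ, T (θ, s)) := by
        by_contra hcon
        rw [not_lt] at hcon
        have : T (θ, s) ^ 2 * Q (θ, T (θ, s)) ≤ 0 :=
          mul_nonpos_of_nonneg_of_nonpos (by positivity) hcon
        have hs3 : 0 < s ^ 2 := by have := hs.1; positivity
        linarith
      have h3 : T (θ, s) * Real.sqrt (Q (θ, T (θ, s))) = s := by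
        have h4 : (T (θ, s) * Real.sqrt (Q (θ, T (θ, s)))) ^ 2 = s ^ 2 := by
          rw [mul_pow, Real.sq_sqrt hQp.le, h2]
        have h5 : 0 ≤ T (θ, s) * Real.sqrt (Q (θ, T (θ, s))) := by positivity
        exact (pow_left_inj₀ h5 hs.1.le two_ne_zero).mp h4
      have hsq := (Real.sqrt_pos.mpr hQp).ne'
      have hs0 := hs.1.ne'
      rw [div_eq_div_iff hsq hs0]
      linarith
    have hmain : Tendsto (fun s => (T (θ, -s) ^ 2 - T (θ, s) ^ 2) / s ^ m * Q (θ, T (θ, -s)))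
        (𝓝[>] 0) (𝓝 ((1 / Real.sqrt (Q (θ, 0))) ^ m * E (θ, 0))) := by
      have h1 : Tendsto (fun s => (T (θ, s) / s) ^ m * E (θ, T (θ, s))) (𝓝[>] 0)
          (𝓝 ((1 / Real.sqrt (Q (θ, 0))) ^ m * E (θ, 0))) := (hTs.pow m).mul hE1
      have h2 : Tendsto (fun s => (T (θ, -s) ^ 2 - T (θ, s) ^ 2) / s ^ m * Q (θ, T (θ, -s)) -
        (T (θ, s) / s) ^ m * E (θ, T (θ, s))) (𝓝[>] 0) (𝓝 0) := by
        have h3 : Tendsto (fun s : ℝ => L * (C₀ * s) * (2 / c * C₀ ^ m * B')) (𝓝[>] 0) (𝓝 0) := by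
          have := (hid.const_mul (L : ℝ)).mul_const (2 / c * C₀ ^ m * B')
          rwa [mul_zero, zero_mul] at this
        apply squeeze_zero_norm' _ h3
        filter_upwards [hs_small] with s hs
        exact (key θ hθ s hs.1 hs.2).2
      have h4 := h2.add h1
      rw [zero_add] at h4
      apply h4.congr
      intro s
      ring
    have h5 := hmain.div hQ2 (by linarith : Q (θ, 0) ≠ 0)
    apply h5.congr'
    filter_upwards [hs_small] with s hs
    have hsε : s < ε := hs.2.trans_le (min_le_left _ _)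
    have hQb : c ≤ Q (θ, T (θ, -s)) := by
      apply hQc θ hθ
      have := hTb θ hθ (-s) (by rwa [abs_neg, abs_of_pos hs.1])
      rw [abs_neg, abs_of_pos hs.1] at this
      have h6 : C₀ * s ≤ C₀ * ε := by gcongr
      linarith
    have h7 : Q (θ, T (θ, -s)) ≠ 0 := by linarith
    simp only [Pi.div_apply]
    rw [mul_div_assoc, div_self h7, mul_one]
  -- dominated convergence
  have hdom : Tendsto (fun s => ∫ θ in (0 : ℝ)..(2 * Real.pi), (T (θ, -s) ^ 2 - T (θ, s) ^ 2) / s ^ m)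
      (𝓝[>] 0) (𝓝 (∫ θ in (0 : ℝ)..(2 * Real.pi),
        (1 / Real.sqrt (Q (θ, 0))) ^ m * E (θ, 0) / Q (θ, 0))) := by
    apply intervalIntegral.tendsto_integral_filter_of_dominated_convergence
      (fun _ => 2 / c * C₀ ^ m * B')
    · filter_upwards [Ioo_mem_nhdsGT hs₀p] with s hs
      have hsε : s < ε := hs.2.trans_le (min_le_left _ _)
      have c1 := hTc s (by rwa [abs_of_pos hs.1])
      have c2 := hTc (-s) (by rwa [abs_neg, abs_of_pos hs.1])
      exact (((c2.pow 2).sub (c1.pow 2)).div_const _).aestronglyMeasurable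
    · filter_upwards [Ioo_mem_nhdsGT hs₀p] with s hs
      apply Filter.Eventually.of_forall
      intro θ hθ
      rw [uIoc_of_le hpi] at hθ
      exact (key θ ⟨hθ.1.le, hθ.2⟩ s hs.1 hs.2).1
    · exact intervalIntegrable_const
    · apply Filter.Eventually.of_forall
      intro θ hθ
      rw [uIoc_of_le hpi] at hθ
      exact hlim θ ⟨hθ.1.le, hθ.2⟩
  have hzero : Tendsto (fun s => ∫ θ in (0 : ℝ)..(2 * Real.pi), (T (θ, -s) ^ 2 - T (θ, s) ^ 2) / s ^ m)
      (𝓝[>] 0) (𝓝 0) := by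
    apply tendsto_const_nhds.congr'
    filter_upwards [Ioo_mem_nhdsGT hs₀p] with s hs
    have hsε : s < ε := hs.2.trans_le (min_le_left _ _)
    have c1 := hTc s (by rwa [abs_of_pos hs.1])
    have c2 := hTc (-s) (by rwa [abs_neg, abs_of_pos hs.1])
    have i1 : IntervalIntegrable (fun θ => T (θ, -s) ^ 2) MeasureTheory.volume 0 (2 * Real.pi) :=
      (c2.pow 2).intervalIntegrable _ _
    have i2 : IntervalIntegrable (fun θ => T (θ, s) ^ 2) MeasureTheory.volume 0 (2 * Real.pi) :=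
      (c1.pow 2).intervalIntegrable _ _
    rw [intervalIntegral.integral_div, intervalIntegral.integral_sub i1 i2,
      hint s hs.1 hsε, sub_self, zero_div]
  exact tendsto_nhds_unique hdom hzero

theorem had_deriv {f g : ℝ × ℝ → ℝ} (hg : ContDiff ℝ ∞ g) (h : ∀ θ t, f (θ, t) = t * g (θ, t))
    (θ : ℝ) : deriv (fun t => f (θ, t)) 0 = g (θ, 0) := by
  have h1 : (fun t => f (θ, t)) = fun t => t * g (θ, t) := funext fun t => h θ t
  have h2 : ContDiff ℝ ∞ (fun t => g (θ, t)) := by fun_prop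
  have h3 : DifferentiableAt ℝ (fun t => g (θ, t)) 0 := h2.differentiable (by simp) 0
  have h4 : HasDerivAt (fun t : ℝ => t * g (θ, t)) (1 * g (θ, 0) + 0 * deriv (fun t => g (θ, t)) 0) 0 :=
    (hasDerivAt_id' (0 : ℝ)).mul h3.hasDerivAt
  rw [h1, h4.deriv]
  ring

theorem rho_per {p : ℝ → ℝ} (hp : Supp p) (α : ℝ) : rho p (α + 2 * Real.pi) = rho p α := by
  have h0 : (fun x => p (x + 2 * Real.pi)) = p := funext hp.per
  have h1 : ∀ x, deriv p (x + 2 * Real.pi) = deriv p x := by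
    intro x
    rw [← deriv_comp_add_const, h0]
  have h1' : (fun x => deriv p (x + 2 * Real.pi)) = deriv p := funext h1
  have h2 : ∀ x, deriv (deriv p) (x + 2 * Real.pi) = deriv (deriv p) x := by
    intro x
    rw [← deriv_comp_add_const, h1']
  unfold rho
  rw [hp.per, h2]

theorem rho_cont {p : ℝ → ℝ} (hp : Supp p) : Continuous (rho p) := by
  have h1 : ContDiff ℝ ∞ (deriv p) := (contDiff_infty_iff_deriv.mp hp.smooth).2
  have h2 : ContDiff ℝ ∞ (deriv (deriv p)) := (contDiff_infty_iff_deriv.mp h1).2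
  exact hp.smooth.continuous.add h2.continuous

/-- the area argument for one level -/
theorem area_level (hAREA : S_AREA) {p : ℝ → ℝ} {X Z : ℝ × ℝ → ℝ × ℝ} (hW : TWeb p X Z)
    (Ts : ℝ → ℝ) (hTs : ContDiff ℝ ∞ Ts) (hTp : ∀ θ, Ts (θ + 2 * Real.pi) = Ts θ)
    (l : ℝ → ℝ) (hl : Continuous l) (hlp : ∀ φ, l (φ + 2 * Real.pi) = l φ)
    (hlev : ∀ θ ∈ Icc (0 : ℝ) (2 * Real.pi), (X (θ, Ts θ)).2 ^ 2 = l (X (θ, Ts θ)).1) :
    ∫ θ in (0 : ℝ)..(2 * Real.pi), Ts θ ^ 2 =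
      ∫ φ in (0 : ℝ)..(2 * Real.pi), (2 * rho p φ * l φ + l φ ^ 2) := by
  have hpi : (0 : ℝ) ≤ 2 * Real.pi := by have := Real.pi_pos; linarith
  rw [← hAREA p X Z hW Ts hTs hTp]
  set G : ℝ → ℝ := fun φ => 2 * rho p φ * l φ + l φ ^ 2 with hG
  set φ : ℝ → ℝ := fun x => (X (x, Ts x)).1 with hφ
  have hX := hW.smX
  have hφs : ContDiff ℝ ∞ φ := by
    have h1 : ContDiff ℝ ∞ (fun x : ℝ => X (x, Ts x)) := hX.comp (contDiff_id.prodMk hTs)
    exact contDiff_fst.comp h1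
  have hGc : Continuous G := by
    have := rho_cont hW.supp
    fun_prop
  have h1 : ∫ θ in (0 : ℝ)..(2 * Real.pi),
      (2 * rho p (X (θ, Ts θ)).1 * (X (θ, Ts θ)).2 ^ 2 + ((X (θ, Ts θ)).2 ^ 2) ^ 2) *
      deriv (fun x => (X (x, Ts x)).1) θ = ∫ θ in (0 : ℝ)..(2 * Real.pi), (G ∘ φ) θ * deriv φ θ := by
    apply intervalIntegral.integral_congr
    intro θ hθ
    rw [uIcc_of_le hpi] at hθ
    simp only [Function.comp, hG, hφ]
    rw [hlev θ hθ]
  rw [h1, intervalIntegral.integral_comp_mul_deriv (f := φ) (f' := deriv φ) (g := G)]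
  · have h2 : φ (2 * Real.pi) = φ 0 + 2 * Real.pi := by
      simp only [hφ]
      have h3 := hW.per 0 (Ts 0)
      have h4 := hTp 0
      rw [zero_add] at h3 h4
      rw [h4, h3]
    rw [h2]
    have hper : Function.Periodic G (2 * Real.pi) := by
      intro x
      simp only [hG]
      rw [rho_per hW.supp, hlp]
    have h5 := hper.intervalIntegral_add_eq (φ 0) 0
    rw [zero_add] at h5
    exact h5
  · intro x _
    exact (hφs.differentiable (by simp) x).hasDerivAt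
  · exact (hφs.continuous_deriv (by simp)).continuousOn
  · exact hGc

theorem gx_MEAN (hAREA : S_AREA) (hLOC : S_LOC) (hHAD : S_HAD) (hDER : S_DER) : S_MEAN := by
  intro p X Z hW m H E hm hH hHp hH0 hHd hE hodd
  have hpi : (0 : ℝ) < 2 * Real.pi := by have := Real.pi_pos; linarith
  have hX := hW.smX
  obtain ⟨K, hK, hKe⟩ := hHAD H hH hH0
  obtain ⟨r, hr, hre⟩ := hHAD (fun x => (X x).2) (by fun_prop) (fun θ => by simp [hW.axis])
  replace hre : ∀ θ t : ℝ, (X (θ, t)).2 = t * r (θ, t) := hre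
  set Q : ℝ × ℝ → ℝ := fun x => r x ^ 2 * K ((X x).1, (X x).2 ^ 2) with hQdef
  have hQ : ContDiff ℝ ∞ Q := by fun_prop
  have hF : ∀ θ t, H ((X (θ, t)).1, (X (θ, t)).2 ^ 2) = t ^ 2 * Q (θ, t) := by
    intro θ t
    have e1 : (X (θ, t)).2 ^ 2 = t ^ 2 * r (θ, t) ^ 2 := by
      have := hre θ t
      rw [this]
      ring
    rw [hKe]
    simp only [hQdef]
    rw [← mul_assoc, ← e1]
  have hKd : ∀ φ, K (φ, 0) = deriv (fun y => H (φ, y)) 0 := fun φ => (had_deriv hK hKe φ).symm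
  have hrd : ∀ θ, r (θ, 0) = deriv (fun t => (X (θ, t)).2) 0 := fun θ =>
    (had_deriv (f := fun x => (X x).2) hr hre θ).symm
  have hQ0 : ∀ θ, Q (θ, 0) = (deriv (fun t => (X (θ, t)).2) 0) ^ 2 * deriv (fun y => H (θ, y)) 0 := by
    intro θ
    simp only [hQdef]
    rw [hW.axis θ, hrd]
    simp only
    rw [show (0 : ℝ) ^ 2 = 0 by norm_num, hKd]
  have hQpos : ∀ θ, 0 < Q (θ, 0) := by
    intro θ
    rw [hQ0]
    have h1 := hW.der2 θ
    have h2 := hHd θ
    positivity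
  have hQper : ∀ θ t, t ≠ 0 → Q (θ + 2 * Real.pi, t) = Q (θ, t) := by
    intro θ t ht
    have h1 := hF (θ + 2 * Real.pi) t
    have h2 := hF θ t
    rw [hW.per] at h1
    simp only at h1
    rw [hHp, h2] at h1
    exact (mul_left_cancel₀ (pow_ne_zero 2 ht) h1).symm
  -- lower bounds for `Q`
  obtain ⟨θm, hθm, hmin⟩ := (isCompact_Icc (a := (0 : ℝ)) (b := 2 * Real.pi)).exists_isMinOn
    ⟨0, ⟨le_rfl, hpi.le⟩⟩ (f := fun θ => Q (θ, 0))
    (hQ.continuous.comp (by fun_prop : Continuous fun t : ℝ => (t, (0 : ℝ)))).continuousOn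
  set c : ℝ := Q (θm, 0) / 2 with hc
  have hcp : 0 < c := by have := hQpos θm; positivity
  have hcQ : ∀ θ ∈ Icc (0 : ℝ) (2 * Real.pi), 2 * c ≤ Q (θ, 0) := by
    intro θ hθ
    have := hmin hθ
    replace this : Q (θm, 0) ≤ Q (θ, 0) := this
    rw [hc]
    linarith
  obtain ⟨R, hR, hRe⟩ := hHAD (fun x => Q x - Q (x.1, 0)) (by fun_prop) (fun θ => by simp)
  replace hRe : ∀ θ t : ℝ, Q (θ, t) - Q (θ, 0) = t * R (θ, t) := hRe
  have hKK : IsCompact (Icc (0 : ℝ) (2 * Real.pi) ×ˢ Icc (-1 : ℝ) 1) := isCompact_Icc.prod isCompact_Icc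
  obtain ⟨BR, hBR⟩ := hKK.exists_bound_of_continuousOn hR.continuous.continuousOn
  obtain ⟨Br, hBr⟩ := hKK.exists_bound_of_continuousOn hr.continuous.continuousOn
  have hBR0 : 0 ≤ BR := (norm_nonneg _).trans (hBR (0, 0) ⟨⟨le_rfl, hpi.le⟩, ⟨by norm_num, by norm_num⟩⟩)
  have hBr0 : 0 ≤ Br := (norm_nonneg _).trans (hBr (0, 0) ⟨⟨le_rfl, hpi.le⟩, ⟨by norm_num, by norm_num⟩⟩)
  set t₀ : ℝ := min 1 (c / (BR + 1)) with ht₀
  have ht₀p : 0 < t₀ := lt_min one_pos (by positivity)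
  have hQc : ∀ θ ∈ Icc (0 : ℝ) (2 * Real.pi), ∀ t, |t| ≤ t₀ → c ≤ Q (θ, t) := by
    intro θ hθ t ht
    have h1 := hRe θ t
    have ht1 : |t| ≤ 1 := ht.trans (min_le_left _ _)
    have ht2 : |t| ≤ c / (BR + 1) := ht.trans (min_le_right _ _)
    have h2 := hBR (θ, t) ⟨hθ, ⟨(abs_le.mp ht1).1, (abs_le.mp ht1).2⟩⟩
    rw [Real.norm_eq_abs] at h2
    have h3 : |t * R (θ, t)| ≤ c := by
      rw [abs_mul]
      calc |t| * |R (θ, t)| ≤ c / (BR + 1) * BR := by gcongr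
        _ ≤ c / (BR + 1) * (BR + 1) := by gcongr; linarith
        _ = c := by field_simp
    rw [← h1] at h3
    have h4 := (abs_le.mp h3).1
    have h5 := hcQ θ hθ
    linarith
  -- the local inverse
  obtain ⟨h, hh, hhc, hhe⟩ := exists_mod c hcp
  have hhp : ∀ x, 0 < h x := fun x => lt_of_lt_of_le (by positivity) (hhc x)
  set w : ℝ × ℝ → ℝ := fun x => Real.sqrt (h (Q x)) with hw
  have hws : ContDiff ℝ ∞ w := by
    rw [hw]
    apply ContDiff.sqrt (hh.comp hQ)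
    intro x
    exact (hhp _).ne'
  have hwp : ∀ x, 0 < w x := fun x => Real.sqrt_pos.mpr (hhp _)
  obtain ⟨ε₁, δ₁, T, hε₁, hδ₁, hTs, hTper, hTf, -, -, -, -⟩ := hLOC (fun x => x.2 * w x) (by fun_prop)
    (fun θ t => by
      rcases eq_or_ne t 0 with h0 | h0
      · simp [h0]
      · simp only [hw]
        rw [hQper θ t h0])
    (fun θ => by simp)
    (fun θ => by
      rw [had_deriv (f := fun x => x.2 * w x) hws (fun _ _ => rfl) θ]
      exact hwp _)
  replace hTf : ∀ θ s : ℝ, |s| < ε₁ → |T (θ, s)| < δ₁ ∧ T (θ, s) * w (θ, T (θ, s)) = s := hTf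
  obtain ⟨ε₂, δ₂, l, hε₂, hδ₂, hls, hlper, -, hluniq, -, -, -⟩ := hLOC H hH hHp hH0 hHd
  set C₀ : ℝ := 1 / Real.sqrt (c / 2) with hC₀
  have hsc : 0 < Real.sqrt (c / 2) := Real.sqrt_pos.mpr (by positivity)
  have hC₀p : 0 < C₀ := by positivity
  have hTb : ∀ θ s, |s| < ε₁ → |T (θ, s)| ≤ C₀ * |s| := by
    intro θ s hs
    have h1 := (hTf θ s hs).2
    have h2 : Real.sqrt (c / 2) ≤ w (θ, T (θ, s)) := Real.sqrt_le_sqrt (hhc _)
    have h3 : |T (θ, s)| * w (θ, T (θ, s)) = |s| := by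
      rw [← h1, abs_mul, abs_of_pos (hwp _)]
      congr 2 <;> rw [h1]
    have h4 : |T (θ, s)| * Real.sqrt (c / 2) ≤ |s| := by
      rw [← h3]
      gcongr
    rw [hC₀, one_div, inv_mul_eq_div, le_div_iff₀ hsc]
    exact h4
  set ε : ℝ := min (min ε₁ (t₀ / C₀)) (min (min 1 ε₂) (min 1 δ₂ / (C₀ * (Br + 1)))) with hεdef
  have hεp : 0 < ε := by
    have : 0 < min 1 δ₂ := lt_min one_pos hδ₂
    refine lt_min (lt_min hε₁ (by positivity)) (lt_min (lt_min one_pos hε₂) (by positivity))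
  have hεε₁ : ε ≤ ε₁ := (min_le_left _ _).trans (min_le_left _ _)
  have hεt : C₀ * ε ≤ t₀ := by
    have h1 : ε ≤ t₀ / C₀ := (min_le_left _ _).trans (min_le_right _ _)
    rw [le_div_iff₀ hC₀p] at h1
    linarith
  have hε1 : ε ≤ 1 := (min_le_right _ _).trans ((min_le_left _ _).trans (min_le_left _ _))
  have hεε₂ : ε ≤ ε₂ := (min_le_right _ _).trans ((min_le_left _ _).trans (min_le_right _ _))
  have hεδ : ε * (C₀ * (Br + 1)) ≤ min 1 δ₂ := by
    have h1 : ε ≤ min 1 δ₂ / (C₀ * (Br + 1)) := (min_le_right _ _).trans (min_le_right _ _)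
    rwa [le_div_iff₀ (by positivity)] at h1
  have ht₀1 : t₀ ≤ 1 := min_le_left _ _
  have hTQ : ∀ θ ∈ Icc (0 : ℝ) (2 * Real.pi), ∀ s, |s| < ε →
      T (θ, s) ^ 2 * Q (θ, T (θ, s)) = s ^ 2 := by
    intro θ hθ s hs
    have hs1 : |s| < ε₁ := hs.trans_le hεε₁
    have h1 := (hTf θ s hs1).2
    have h2 := hTb θ s hs1
    have h3 : c ≤ Q (θ, T (θ, s)) := by
      apply hQc θ hθ
      have h4 : C₀ * |s| ≤ C₀ * ε := by gcongr
      linarith
    have h5 : w (θ, T (θ, s)) ^ 2 = Q (θ, T (θ, s)) := by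
      simp only [hw]
      rw [Real.sq_sqrt (hhp _).le, hhe _ h3]
    rw [← h5, ← mul_pow, h1]
  have hTc : ∀ s, |s| < ε₁ → ContDiff ℝ ∞ (fun θ => T (θ, s)) := by
    intro s hs
    exact hTs.comp_contDiff (by fun_prop : ContDiff ℝ ∞ fun θ : ℝ => (θ, s)) (fun θ => hs)
  have hcore := core Q E T m ε c C₀ hεp hcp hC₀p (hεt.trans ht₀1) hQ hE.continuous
    (fun θ hθ t ht => hQc θ hθ t (ht.trans hεt)) hTQ
    (fun θ hθ s hs hs' => by
      have h1 := (hTf θ s (by rw [abs_of_pos hs]; linarith)).2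
      by_contra hcon
      rw [not_lt] at hcon
      have h2 := mul_nonpos_of_nonpos_of_nonneg hcon (hwp (θ, T (θ, s))).le
      linarith)
    (fun θ hθ s hs hs' => by
      have h1 := (hTf θ (-s) (by rw [abs_neg, abs_of_pos hs]; linarith)).2
      by_contra hcon
      rw [not_lt] at hcon
      have h2 := mul_nonneg hcon (hwp (θ, T (θ, -s))).le
      linarith)
    (fun θ hθ s hs => hTb θ s (hs.trans_le hεε₁))
    (fun s hs => (hTc s (hs.trans_le hεε₁)).continuous)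
    (fun θ hθ t => by
      rw [← hodd θ t]
      unfold Pool.Agent.H242.GX.Odd
      rw [hF, hF, neg_sq])
    (fun s hs hs' => by
      have hlev : ∀ s : ℝ, |s| < ε → ∫ θ in (0 : ℝ)..(2 * Real.pi), T (θ, s) ^ 2 =
          ∫ φ in (0 : ℝ)..(2 * Real.pi), (2 * rho p φ * l (φ, s ^ 2) + l (φ, s ^ 2) ^ 2) := by
        intro s hs
        have hs2 : |s ^ 2| < ε₂ := by
          rw [abs_pow]
          have h0 := abs_nonneg s
          have h1 : |s| < 1 := hs.trans_le hε1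
          nlinarith
        apply area_level hAREA hW (fun θ => T (θ, s)) (hTc s (hs.trans_le hεε₁))
          (fun θ => hTper θ s) (fun φ => l (φ, s ^ 2))
        · exact (hls.comp_contDiff (by fun_prop : ContDiff ℝ ∞ fun θ : ℝ => (θ, s ^ 2))
            (fun θ => hs2)).continuous
        · intro φ
          exact hlper φ (s ^ 2)
        · intro θ hθ
          apply hluniq
          · have h1 := hre θ (T (θ, s))
            have h2 := hTb θ s (hs.trans_le hεε₁)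
            have h3 : |T (θ, s)| ≤ 1 := by
              have h4 : C₀ * |s| ≤ C₀ * ε := by gcongr
              linarith
            have h5 := hBr (θ, T (θ, s)) ⟨hθ, ⟨(abs_le.mp h3).1, (abs_le.mp h3).2⟩⟩
            rw [Real.norm_eq_abs] at h5
            have h6 : |(X (θ, T (θ, s))).2| < min 1 δ₂ := by
              rw [h1, abs_mul]
              calc |T (θ, s)| * |r (θ, T (θ, s))| ≤ (C₀ * |s|) * Br := by gcongr
                _ ≤ (C₀ * |s|) * (Br + 1) := by gcongr; linarith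
                _ = |s| * (C₀ * (Br + 1)) := by ring
                _ < ε * (C₀ * (Br + 1)) := by gcongr
                _ ≤ min 1 δ₂ := hεδ
            rw [abs_pow]
            have h7 : |(X (θ, T (θ, s))).2| < 1 := h6.trans_le (min_le_left _ _)
            have h8 : |(X (θ, T (θ, s))).2| < δ₂ := h6.trans_le (min_le_right _ _)
            have h9 := abs_nonneg (X (θ, T (θ, s))).2
            nlinarith
          · exact hs2
          · rw [hF, hTQ θ hθ s hs]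
      rw [hlev s (by rwa [abs_of_pos hs]), hlev (-s) (by rwa [abs_neg, abs_of_pos hs]), neg_sq])
  have hfin : ∀ θ, Real.sqrt (2 * rho p θ / deriv (fun y => H (θ, y)) 0) ^ m * E (θ, 0) *
      (rho p θ / deriv (fun y => H (θ, y)) 0) =
      (1 / 2) * ((1 / Real.sqrt (Q (θ, 0))) ^ m * E (θ, 0) / Q (θ, 0)) := by
    intro θ
    have hρ : 0 < rho p θ := hW.supp.pos θ
    have hu := hHd θ
    have h1 := (hDER p X Z hW θ).2.1
    have h2 : Q (θ, 0) = deriv (fun y => H (θ, y)) 0 / (2 * rho p θ) := by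
      rw [hQ0, h1]
      ring
    have h3 : 1 / Real.sqrt (Q (θ, 0)) = Real.sqrt (2 * rho p θ / deriv (fun y => H (θ, y)) 0) := by
      rw [h2, one_div, ← Real.sqrt_inv, inv_div]
    rw [h3, h2]
    field_simp
  simp only [hfin]
  rw [intervalIntegral.integral_const_mul, hcore, mul_zero]

end Pool.Agent.H80.GX.MEAN
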